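import Pool.Agent.Helper36_M1D.Stmts

/-! M1D, module DIMX. -/

set_option autoImplicit false
open Set Topology Filter

namespace Pool.Agent.MD.H9

theorem dimx (hFK : FK) (hTAU : TAU) (hCNT : CNT) (hSWELL : SWELL) (hZDIM : ZDIM) : DIMX := by
  intro k U hU hcov
  set R : Set MM := {p : MM | ∀ i, DD.toX ⁻¹' (U i) ∉ 𝓝 p} with hR
  have hRcl : IsClosed R := by
    have h1 : R = (⋃ i, interior (DD.toX ⁻¹' (U i) : Set MM))ᶜ := by
      ext p
      simp only [hR, mem_ofPred_eq, mem_compl_iff, mem_iUnion, mem_interior_iff_mem_nhds, not_exists]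
    rw [h1]
    exact (isOpen_iUnion fun i => isOpen_interior).isClosed_compl
  have hex : ∀ p : MM, ∃ i, DD.toX p ∈ U i := by
    intro p
    have h1 : DD.toX p ∈ ⋃ i, U i := by rw [hcov]; trivial
    exact mem_iUnion.1 h1
  have hRK : ∀ p ∈ R, p ∈ DD.K (gg p) := by
    intro p hp
    by_cases h1 : ∀ g, p ∉ DD.K g
    · exfalso
      obtain ⟨i, hi⟩ := hex p
      exact hp i ((hTAU.nhds_notMem MM Cant DD p (U i) h1).1 ((hU i).mem_nhds hi))
    · push Not at h1
      obtain ⟨g, hg⟩ := h1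
      have h2 : gg p = g := by
        rw [DD_K] at hg
        exact hg.2.2
      rw [h2]
      exact hg
  set B : Set Cant := gg '' R with hB
  have hBcpt : IsCompact B := hRcl.isCompact.image continuous_gg
  have hBcl : IsClosed B := hBcpt.isClosed
  have hBcount : B.Countable := by
    apply (hCNT MM Cant DD k U hU hcov).mono
    rintro g ⟨p, hp, rfl⟩
    exact ⟨p, hRK p hp, hp⟩
  have hcB : Countable B := hBcount.to_subtype
  -- the coarser space
  set E := DD.restrict B with hE
  set ι : XX → E.TX := fun x => E.toX (DD.toM x) with hι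
  have hιc : Continuous ι := by
    apply continuous_induced_rng.2
    refine (hTAU.cont_toM MM Cant DD).prodMk (continuous_pi fun b => ?_)
    exact hTAU.cont_f MM Cant DD b.1
  set O : Fin k → Set E.TX := fun i => interior ((fun z : E.TX => DD.toX (E.toM z)) ⁻¹' (U i))
    with hO
  have hOcov : (univ : Set E.TX) ⊆ ⋃ i, O i := by
    intro z _
    set p : MM := E.toM z with hp
    have hz : E.toX p = z := rfl
    by_cases hpR : p ∈ R
    · have hgB : gg p ∈ B := ⟨p, hpR, rfl⟩
      have hK := hRK p hpR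
      obtain ⟨i, hi⟩ := hex p
      obtain ⟨t, ht, V, hV, hpV, hVU⟩ :=
        (hTAU.nhds_mem MM Cant DD (gg p) p (U i) hK).1 ((hU i).mem_nhds hi)
      refine mem_iUnion.2 ⟨i, ?_⟩
      rw [hO]
      simp only
      rw [mem_interior_iff_mem_nhds, ← hz]
      refine (hTAU.nhds_mem MM B E ⟨gg p, hgB⟩ p _ hK).2 ⟨t, ht, V, hV, hpV, ?_⟩
      intro q hq hfq
      exact hVU q hq hfq
    · have h1 : ∃ i, DD.toX ⁻¹' (U i) ∈ 𝓝 p := by
        by_contra h2
        push Not at h2
        exact hpR h2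
      obtain ⟨i, hi⟩ := h1
      refine mem_iUnion.2 ⟨i, ?_⟩
      rw [hO]
      simp only
      rw [mem_interior_iff_mem_nhds]
      exact (hTAU.cont_toM MM B E).continuousAt.preimage_mem_nhds hi
  obtain ⟨A, hAcl, hAO, hAcov, hAord⟩ := hZDIM B hBcount hBcl k O (fun i => isOpen_interior) hOcov
  have hnormal : NormalSpace E.TX := hTAU.normal MM B E
  obtain ⟨V, hVop, hAV, hVcl, hVord⟩ := hSWELL E.TX k A O hAcl (fun i => isOpen_interior) hAO hAord
  refine ⟨fun i => ι ⁻¹' V i, fun i => (hVop i).preimage hιc, ?_, ?_, fun x => hVord (ι x)⟩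
  · apply eq_univ_of_forall
    intro x
    obtain ⟨i, hi⟩ := mem_iUnion.1 (hAcov (mem_univ (ι x)))
    exact mem_iUnion.2 ⟨i, hAV i hi⟩
  · intro i x hx
    have h1 : ι x ∈ O i := hVcl i (subset_closure hx)
    have h2 : ι x ∈ (fun z : E.TX => DD.toX (E.toM z)) ⁻¹' (U i) := interior_subset h1
    exact h2

end Pool.Agent.MD.H9
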