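import Pool.Agent.Helper36_M1D.Stmts

/-! M1D, module INDT. -/

set_option autoImplicit false
open Set Topology Filter

namespace Pool.Agent.MD.H9

/-- Cantor space with the topology generated by the identity and `NNc`. -/
def TT : Type := Cant

noncomputable instance : TopologicalSpace TT :=
  TopologicalSpace.induced (fun c : Cant => ((c, NNc c) : Cant × ℝ)) inferInstance

/-- identity -/
def toC (c : TT) : Cant := c

theorem cont_pair : Continuous (fun c : TT => ((toC c, NNc (toC c)) : Cant × ℝ)) :=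
  continuous_induced_dom

theorem cont_toC : Continuous toC := continuous_fst.comp cont_pair

theorem cont_NN : Continuous (fun c : TT => NNc (toC c)) := continuous_snd.comp cont_pair

/-- identity -/
def toT (c : Cant) : TT := c

theorem tendsto_toT (u : ℕ → Cant) (c : Cant) (hu : Tendsto u atTop (𝓝 c))
    (hN : Tendsto (fun n => NNc (u n)) atTop (𝓝 (NNc c))) :
    Tendsto (fun n => toT (u n)) atTop (𝓝 (toT c)) := by
  have h : 𝓝 (toT c) = Filter.comap (fun c : TT => ((toC c, NNc (toC c)) : Cant × ℝ))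
      (𝓝 ((c, NNc c) : Cant × ℝ)) := nhds_induced _ _
  rw [h, tendsto_comap_iff]
  exact hu.prodMk_nhds hN

/-- the map `(t,c) ↦ (t,c,g)` -/
noncomputable def Phi (g : Cant) (x : unitInterval × TT) : XX :=
  DD.toX (eM.symm (x.1, toC x.2, g))

theorem cont_Phi (hTAU : TAU) (g : Cant) : Continuous (Phi g) := by
  rw [continuous_iff_continuousAt]
  intro x
  refine hTAU.tendsto_toX MM Cant DD (unitInterval × TT) (𝓝 x)
    (fun y => eM.symm (y.1, toC y.2, g)) (eM.symm (x.1, toC x.2, g)) ?_ ?_
  · have h : Continuous (fun y : unitInterval × TT => eM.symm (y.1, toC y.2, g)) :=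
      eM.symm.continuous.comp (continuous_fst.prodMk
        ((cont_toC.comp continuous_snd).prodMk continuous_const))
    exact h.continuousAt
  · have h : Continuous (fun y : unitInterval × TT => NNc (toC y.2)) :=
      cont_NN.comp continuous_snd
    exact h.continuousAt

theorem NNc_zero' : NNc (fun _ => false) = 0 := by
  have h : ∀ m, Nc m (fun _ => false) = 0 := by
    intro m
    simp [Nc]
  simp [NNc, h]

theorem indt (hFK : FK) (hTAU : TAU) (hCROSS : CROSS) (hERD : ERD) : INDT := by
  intro W V g hW hV hWV hW0 hV1 hZ hLL hthin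
  set L : Set XX := (W ∪ V)ᶜ with hL
  have hLcl : IsClosed L := (hW.union hV).isClosed_compl
  -- points of `L` over `g` lie in `K g`
  have hLK : ∀ p : MM, DD.toX p ∈ L → gg p = g → p ∈ DD.K g := by
    intro p hp hg
    rw [DD_K]
    refine ⟨hthin, ?_, hg⟩
    rw [hLL]
    rintro (h | h)
    · have h' : p ∈ DD.toX ⁻¹' W := interior_subset h
      exact hp (Or.inl h')
    · have h' : p ∈ DD.toX ⁻¹' V := interior_subset h
      exact hp (Or.inr h')
  have hLLmem : ∀ p : MM, DD.toX p ∈ L → p ∈ LL g := by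
    intro p hp
    rw [hLL]
    rintro (h | h)
    · have h' : p ∈ DD.toX ⁻¹' W := interior_subset h
      exact hp (Or.inl h')
    · have h' : p ∈ DD.toX ⁻¹' V := interior_subset h
      exact hp (Or.inr h')
  set A : Set XX := {x | gg (DD.toM x) = g ∧ cc (DD.toM x) = fun _ => false} with hA
  set O : Set XX := {x | DD.f g (DD.toM x) < 1} with hO
  have hcM := hTAU.cont_toM MM Cant DD
  have hAcl : IsClosed A := by
    have h1 : IsClosed {x : XX | gg (DD.toM x) = g} :=
      isClosed_eq (continuous_gg.comp hcM) continuous_const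
    have h2 : IsClosed {x : XX | cc (DD.toM x) = fun _ => false} :=
      isClosed_eq (continuous_cc.comp hcM) continuous_const
    exact h1.inter h2
  have hOop : IsOpen O := isOpen_lt (hTAU.cont_f MM Cant DD g) continuous_const
  have hAO : A ∩ L ⊆ O := by
    rintro x ⟨hx, -⟩
    have h1 := hFK.f_le_NN MM Cant DD g (DD.toM x)
    rw [DD_NN, hx.2, NNc_zero'] at h1
    change DD.f g (DD.toM x) < 1
    linarith
  obtain ⟨W', hW'op, hAW', hclO, hempty⟩ := hZ A O hAcl hOop hAO
  have hclW' : closure (W' ∩ L) ∩ L ⊆ W' := by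
    rintro x ⟨hx1, hx2⟩
    by_contra hx3
    have : x ∈ ({x : XX | x ∈ closure (W' ∩ L) ∧ x ∈ L ∧ x ∉ W'} : Set XX) := ⟨hx1, hx2, hx3⟩
    rw [hempty] at this
    exact this
  have hPcl : IsClosed (W' ∩ L) := by
    have h1 : W' ∩ L = closure (W' ∩ L) ∩ L := by
      apply Subset.antisymm
      · exact fun x hx => ⟨subset_closure hx, hx.2⟩
      · exact fun x hx => ⟨hclW' hx, hx.2⟩
    rw [h1]
    exact isClosed_closure.inter hLcl
  have hQcl : IsClosed (L \ W') := hLcl.sdiff hW'op
  have hΦ := cont_Phi hTAU g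
  obtain ⟨H, hH, hH1, hH2⟩ := hCROSS TT (Phi g ⁻¹' W) (Phi g ⁻¹' V) (Phi g ⁻¹' (W' ∩ L))
    (Phi g ⁻¹' (L \ W')) (hW.preimage hΦ) (hV.preimage hΦ) (hPcl.preimage hΦ) (hQcl.preimage hΦ)
    (hWV.preimage _)
    (by
      apply Disjoint.preimage
      rw [Set.disjoint_left]
      exact fun x hx hx' => hx'.2 hx.1)
    (by
      ext x
      simp only [mem_union, mem_preimage, mem_compl_iff, mem_inter_iff, Set.mem_sdiff]
      have : (Phi g x ∈ L) ↔ ¬ (Phi g x ∈ W ∨ Phi g x ∈ V) := Iff.rfl
      tauto)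
    (fun c => hW0 _ rfl) (fun c => hV1 _ rfl)
    (by
      intro c
      have h1 := hthin.2 (toC c)
      apply Set.eq_empty_of_subset_empty
      rw [← h1]
      apply interior_mono
      intro r hr
      apply hLLmem
      rcases hr with hr | hr
      · exact hr.2
      · exact hr.1)
  obtain ⟨c, hcH, hc1⟩ := hERD H
    (by
      apply hH1
      intro r hr
      have h1 : Phi g (r, (fun _ => false : Cant)) ∈ A ∩ L := ⟨⟨rfl, rfl⟩, hr.1⟩
      exact hr.2 (hAW' h1).1)
    (by
      intro u c hu hN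
      have h1 := tendsto_toT u c hu hN
      by_cases hc : toT c ∈ H
      · have h2 : H ∈ 𝓝 (toT c) := hH.isOpen.mem_nhds hc
        have h3 := h1 h2
        filter_upwards [h3] with n hn
        exact ⟨fun _ => hc, fun _ => hn⟩
      · have h2 : Hᶜ ∈ 𝓝 (toT c) := hH.isClosed.isOpen_compl.mem_nhds hc
        have h3 := h1 h2
        filter_upwards [h3] with n hn
        exact ⟨fun h => absurd h hn, fun h => absurd h hc⟩)
  apply hH2 c _ hcH
  intro r hr
  have h1 : Phi g (r, c) ∈ O := hclO ⟨subset_closure hr, hr.2⟩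
  have h2 : eM.symm (r, toC c, g) ∈ DD.K g := hLK _ hr.2 rfl
  have h3 := hFK.f_eq_NN MM Cant DD g _ h2
  have h4 : DD.f g (eM.symm (r, toC c, g)) < 1 := h1
  rw [h3] at h4
  have h5 : DD.NN (eM.symm (r, toC c, g)) = NNc c := rfl
  rw [h5, hc1] at h4
  exact lt_irrefl _ h4

end Pool.Agent.MD.H9
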